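import Pool.Agent.helper92.ISA.Asm

set_option autoImplicit false

open Filter Topology

namespace Pool.Agent.helper92.Reserve.MP_069684_IsolationThreshold

open Pool.Agent.PB Pool.Agent.ISA

/-- The critical probability of the pruning of witnesses.
`AllPrun m A p`: for every family of verifiers of polynomial size there are, for every input length `n`, polynomially many
verifiers of polynomial size which accept only witnesses of the given one, such that for every input of length `n` with `1` to
`m n` witnesses the number of witnesses is in `A n` for at least the fraction `p n` of them (`A n = {1}`: isolation).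
`crit m A`: the value of the game in which one player chooses a probability distribution on the sets `K` with `1` to `m` elements, the
other player a set `T`, and the second player gets the probability of `|T ∩ K| ∈ A`.
(1) If `p` is above the critical probability (for at most `n^(1-ε)` witnesses), then all verifiers can be pruned if and only if
P/Poly = NP/Poly.
(2) If `p` is below the critical probability, then all verifiers can be pruned.
(3) The critical probability: `1/2` for the isolation of one of at most two witnesses, `1/2` for pruning to an odd number (`m ≥ 2`),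
at most `H_κ / H_m` for pruning to `1, ..., κ` witnesses, and asymptotically `H_κ / ln m` for fixed `κ` (`1 / ln m` for isolation). -/
theorem result :
    (∀ (ε : ℝ) (m : ℕ → ℕ) (A : ℕ → Set ℕ) (p : ℕ → ℝ), 0 < ε → ε < 1 → (∀ n, 1 ≤ m n) → (∀ n, 1 ∈ A n) → (∀ n, p n ≤ 1) →
      (∀ᶠ n : ℕ in atTop, (1 + ε) * crit (min (m n) ⌊(n : ℝ) ^ (1 - ε)⌋₊) (A n) ≤ p n) →
        (AllPrun m A p ↔ ∀ L : Lang, InPPoly L ↔ InNPPoly L)) ∧
    (∀ (ε : ℝ) (m : ℕ → ℕ) (A : ℕ → Set ℕ) (p : ℕ → ℝ) (c : ℕ), 0 < ε → (∀ n, 1 ≤ m n) → (∀ n, m n ≤ n ^ c + c) →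
      (∀ n, 1 ∈ A n) → (∀ n, p n ≤ (1 - ε) * crit (m n) (A n)) → AllPrun m A p) ∧
    crit 2 {1} = 1 / 2 ∧ (∀ m : ℕ, 2 ≤ m → crit m {c | Odd c} = 1 / 2) ∧
    (∀ m κ : ℕ, 1 ≤ κ → κ ≤ m → crit m (Set.Icc 1 κ) ≤ (harmonic κ : ℝ) / (harmonic m : ℝ)) ∧
    ∀ κ : ℕ, 1 ≤ κ → Tendsto (fun m : ℕ => crit m (Set.Icc 1 κ) * Real.log m) atTop (𝓝 (harmonic κ : ℝ)) :=
  Pool.Agent.ISA.Asm.aFNQ

end Pool.Agent.helper92.Reserve.MP_069684_IsolationThreshold
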