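import Mathlib
import Pool.Agent.helper14.TS.Defs
import Pool.Agent.helper14.TS.Fin

/-!
# A tight time-space bound for pure dynamic programs for the travelling salesman problem

MP_e961e9_lc.  Cities `0, …, m`, so `n = m + 1` cities, `n ≥ 2`.  A pure dynamic program is a list of
instructions (load a distance, load a constant, add two registers, minimum of two registers) on
`S` registers; its length is the number of executed instructions.  The Held-Karp dynamic program
(`S` and `T` about `2 ^ n`) and the recursion of Gurevich and Shelah (second part of the theorem)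
are of this kind.

* Lower bound: `log₂ T ≥ 2 n - 24 √(n log₂ (n S))` for every correct program.
* Upper bound: `S ≤ 6 log₂ n` registers and `log₂ T ≤ 2 n + 6 (log₂ n)²` suffice.
-/

namespace Pool.Agent.helper92.Reserve.PureDPTimeSpace

open Pool.Agent.TSPDP

theorem result :
    (∀ (m S : ℕ) (p : List (Instr S (Edge m))) (out : Fin S), 1 ≤ m →
      ((∀ d : Edge m → ℤ, (∀ e, 0 ≤ d e) → Solves p out d) ∨
        ((∀ (r : Fin S) (c : WithTop ℤ), Instr.const r c ∈ p → 0 ≤ c) ∧
          ∃ K : ℤ, 2 * (m : ℤ) + 1 ≤ K ∧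
            ∀ d : Edge m → ℤ, (∀ e, d e = 1 ∨ d e = K) → Solves p out d)) →
      2 * ((m : ℝ) + 1) - 24 * √(((m : ℝ) + 1) * Real.logb 2 (((m : ℝ) + 1) * S)) ≤
        Real.logb 2 p.length) ∧
    (∀ m : ℕ, 1 ≤ m → ∃ (S : ℕ) (p : List (Instr S (Edge m))) (out : Fin S),
      (∀ (r : Fin S) (c : WithTop ℤ), Instr.const r c ∈ p → c = ⊤) ∧
      (∀ d : Edge m → ℤ, Solves p out d) ∧
      (S : ℝ) ≤ 6 * Real.logb 2 ((m : ℝ) + 1) ∧
      Real.logb 2 p.length ≤ 2 * ((m : ℝ) + 1) + 6 * Real.logb 2 ((m : ℝ) + 1) ^ 2) :=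
  ⟨fun m S p out hm hp => lower m S p out hm hp, fun m hm => upper m hm⟩

end Pool.Agent.helper92.Reserve.PureDPTimeSpace
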